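import Pool.Agent.E8helper19.LC.Stm

/-!
Project LC (MP_862eda_mp), piece LC7: bounds for the kernel `D`.
-/

set_option autoImplicit false
open MeasureTheory Filter Topology Set
open scoped ContDiff Real

namespace Pool.Agent.E8helper67.LC

open Pool.Agent.E8helper19.LC

noncomputable section

/-! ### Even functions and moments -/

lemma int_abs {f : ℝ → ℝ} (hf : IntegrableOn f (Ioi 0)) : Integrable (fun x : ℝ => f |x|) := by
  have h1 : IntegrableOn (fun x => f |x|) (Ioi 0) := by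
    refine hf.congr_fun (fun x hx => ?_) measurableSet_Ioi
    rw [abs_of_pos hx]
  have h2 : IntegrableOn (fun x => f |x|) (Iic 0) := by
    rw [← Measure.map_neg_eq_self (volume : Measure ℝ)]
    let m : MeasurableEmbedding fun x : ℝ => -x := (Homeomorph.neg ℝ).measurableEmbedding
    rw [m.integrableOn_map_iff]
    simp_rw [Function.comp_def, abs_neg, neg_preimage, neg_Iic, neg_zero]
    exact Iff.mpr integrableOn_Ici_iff_integrableOn_Ioi h1
  have h3 := h2.union h1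
  rwa [Iic_union_Ioi, integrableOn_univ] at h3

lemma mom_int {H : ℝ → ℝ} {β : ℝ} (hβ : 0 < β) {i : ℕ}
    (h : IntegrableOn (fun x => x ^ i * H x) (Ioi 0)) :
    IntegrableOn (fun x => x ^ i * H (β * x)) (Ioi 0) := by
  have h1 := (integrableOn_Ioi_comp_mul_left_iff (fun x => x ^ i * H x) 0 hβ).2 (by rwa [mul_zero])
  have h2 : IntegrableOn (fun x => (β ^ i)⁻¹ * ((β * x) ^ i * H (β * x))) (Ioi 0) :=
    h1.const_mul (β ^ i)⁻¹
  refine h2.congr_fun (fun x _ => ?_) measurableSet_Ioi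
  have : β ^ i ≠ 0 := by positivity
  change (β ^ i)⁻¹ * ((β * x) ^ i * H (β * x)) = x ^ i * H (β * x)
  rw [mul_pow, ← mul_assoc, ← mul_assoc, inv_mul_cancel₀ this, one_mul]

lemma mom {H : ℝ → ℝ} {β : ℝ} (hβ : 0 < β) (i : ℕ) :
    ∫ x in Ioi (0 : ℝ), x ^ i * H (β * x) =
      (∫ x in Ioi (0 : ℝ), x ^ i * H x) / β ^ (i + 1) := by
  have h1 := integral_comp_mul_left_Ioi (fun x => x ^ i * H x) 0 hβ
  rw [mul_zero, smul_eq_mul] at h1
  have h2 : ∫ x in Ioi (0 : ℝ), (β * x) ^ i * H (β * x) =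
      β ^ i * ∫ x in Ioi (0 : ℝ), x ^ i * H (β * x) := by
    rw [← integral_const_mul]
    congr 1
    funext x
    ring
  rw [h2] at h1
  rw [eq_div_iff (by positivity), pow_succ]
  calc (∫ x in Ioi (0 : ℝ), x ^ i * H (β * x)) * (β ^ i * β)
      = β * (β ^ i * ∫ x in Ioi (0 : ℝ), x ^ i * H (β * x)) := by ring
    _ = ∫ x in Ioi (0 : ℝ), x ^ i * H x := by
      rw [h1, ← mul_assoc, mul_inv_cancel₀ hβ.ne', one_mul]

/-- the majorant -/
def Ph (K β : ℝ) (H : ℝ → ℝ) (r : ℝ) : ℝ := K * (|r| ^ 3 * H (β * |r|))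

lemma Ph_meas (K β : ℝ) {H : ℝ → ℝ} (hH : Measurable H) : Measurable (Ph K β H) := by
  unfold Ph
  fun_prop

lemma Ph_int (K : ℝ) {β : ℝ} (hβ : 0 < β) {H : ℝ → ℝ}
    (h : IntegrableOn (fun x => x ^ 3 * H x) (Ioi 0)) : Integrable (Ph K β H) :=
  (int_abs (mom_int hβ h)).const_mul K

lemma Ph_integral (K : ℝ) {β : ℝ} (hβ : 0 < β) {H : ℝ → ℝ} :
    ∫ r, Ph K β H r = 2 * K * (∫ x in Ioi (0 : ℝ), x ^ 3 * H x) / β ^ 4 := by
  unfold Ph
  rw [integral_const_mul, integral_comp_abs (f := fun x => x ^ 3 * H (β * x)), mom hβ 3]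
  ring

lemma slice_eq (a c : ℝ) :
    (fun s : ℝ => if |s| ≤ a then c else 0) = (Icc (-a) a).indicator (fun _ => c) := by
  funext s
  simp only [indicator, mem_Icc, abs_le]

lemma slice_int (a c : ℝ) : Integrable (fun s : ℝ => if |s| ≤ a then c else 0) := by
  rw [slice_eq, integrable_indicator_iff measurableSet_Icc]
  exact integrableOn_const (by simp)

lemma slice (a c : ℝ) (ha : 0 ≤ a) : ∫ s : ℝ, (if |s| ≤ a then c else 0) = 2 * a * c := by
  rw [slice_eq, integral_indicator measurableSet_Icc, setIntegral_const, smul_eq_mul,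
    Real.volume_real_Icc_of_le (by linarith)]
  ring

/-- the majorant in two variables -/
def Ps (K β L : ℝ) (H : ℝ → ℝ) (j : ℕ) (w : ℝ × ℝ) : ℝ :=
  if |w.1| ≤ L + |w.2| then Ph K β H w.2 * |w.2| ^ j else 0

lemma Ps_meas (K β L : ℝ) {H : ℝ → ℝ} (hH : Measurable H) (j : ℕ) : Measurable (Ps K β L H j) := by
  unfold Ps
  apply Measurable.ite
  · exact measurableSet_le (by fun_prop) (by fun_prop)
  · have := Ph_meas K β hH
    fun_prop
  · exact measurable_const

/-- the one-dimensional marginal -/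
lemma marg_int (K L : ℝ) {β : ℝ} (hβ : 0 < β) {H : ℝ → ℝ} (j : ℕ)
    (h3 : IntegrableOn (fun x => x ^ (j + 3) * H x) (Ioi 0))
    (h4 : IntegrableOn (fun x => x ^ (j + 4) * H x) (Ioi 0)) :
    Integrable (fun r : ℝ => 2 * (L + |r|) * (Ph K β H r * |r| ^ j)) ∧
    ∫ r : ℝ, 2 * (L + |r|) * (Ph K β H r * |r| ^ j) =
      4 * K * (L * ((∫ x in Ioi (0 : ℝ), x ^ (j + 3) * H x) / β ^ (j + 4)) +
        (∫ x in Ioi (0 : ℝ), x ^ (j + 4) * H x) / β ^ (j + 5)) := by
  have e : (fun r : ℝ => 2 * (L + |r|) * (Ph K β H r * |r| ^ j)) =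
      fun r : ℝ => (fun x : ℝ => 2 * K * L * (x ^ (j + 3) * H (β * x)) +
        2 * K * (x ^ (j + 4) * H (β * x))) |r| := by
    funext r
    unfold Ph
    ring
  have h3' := mom_int hβ h3
  have h4' := mom_int hβ h4
  refine ⟨?_, ?_⟩
  · rw [e]
    exact int_abs ((h3'.const_mul (2 * K * L)).add (h4'.const_mul (2 * K)))
  · rw [e, integral_comp_abs (f := fun x : ℝ => 2 * K * L * (x ^ (j + 3) * H (β * x)) +
        2 * K * (x ^ (j + 4) * H (β * x))), integral_add (h3'.const_mul (2 * K * L)) (h4'.const_mul (2 * K)),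
      integral_const_mul, integral_const_mul, mom hβ, mom hβ]
    ring

lemma Ps_int (K L : ℝ) (hK : 0 ≤ K) (hL : 0 < L) {β : ℝ} (hβ : 0 < β) {H : ℝ → ℝ}
    (hH : Measurable H) (hH0 : ∀ x, 0 < x → 0 ≤ H x) (j : ℕ)
    (h3 : IntegrableOn (fun x => x ^ (j + 3) * H x) (Ioi 0))
    (h4 : IntegrableOn (fun x => x ^ (j + 4) * H x) (Ioi 0)) :
    Integrable (Ps K β L H j) ∧ ∫ w, Ps K β L H j w =
      4 * K * (L * ((∫ x in Ioi (0 : ℝ), x ^ (j + 3) * H x) / β ^ (j + 4)) +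
        (∫ x in Ioi (0 : ℝ), x ^ (j + 4) * H x) / β ^ (j + 5)) := by
  obtain ⟨hm1, hm2⟩ := marg_int K L hβ j h3 h4
  have hPh0 : ∀ r, 0 ≤ Ph K β H r * |r| ^ j := by
    intro r
    unfold Ph
    rcases eq_or_ne r 0 with rfl | hr
    · simp
    · have := hH0 (β * |r|) (by positivity)
      positivity
  have hi : Integrable (Ps K β L H j) (volume.prod volume) := by
    rw [integrable_prod_iff' (Ps_meas K β L hH j).aestronglyMeasurable]
    refine ⟨Eventually.of_forall fun r => ?_, ?_⟩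
    · exact slice_int (L + |r|) (Ph K β H r * |r| ^ j)
    · refine hm1.congr (Eventually.of_forall fun r => ?_)
      change 2 * (L + |r|) * (Ph K β H r * |r| ^ j) = ∫ s, ‖Ps K β L H j (s, r)‖
      rw [← slice _ _ (by positivity)]
      refine integral_congr_ae (Eventually.of_forall fun s => ?_)
      change (if |s| ≤ L + |r| then Ph K β H r * |r| ^ j else 0) =
        ‖(if |s| ≤ L + |r| then Ph K β H r * |r| ^ j else 0 : ℝ)‖
      split_ifs
      · rw [Real.norm_of_nonneg (hPh0 r)]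
      · simp
  refine ⟨hi, ?_⟩
  rw [← hm2]
  have h5 : ∫ w, Ps K β L H j w = ∫ r, ∫ s, Ps K β L H j (s, r) := by
    rw [← integral_prod_symm _ hi]
    rfl
  rw [h5]
  refine integral_congr_ae (Eventually.of_forall fun r => ?_)
  change ∫ s, Ps K β L H j (s, r) = 2 * (L + |r|) * (Ph K β H r * |r| ^ j)
  rw [← slice _ _ (by positivity)]
  rfl

/-! ### The kernel -/

lemma unit_left {γ : ℝ → P} {L : ℝ} (hγ : Crv γ L) {s t : ℝ} (hs : s ≤ -L) (ht : t ≤ -L) :
    ‖γ s - γ t‖ = |s - t| := by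
  rw [hγ.left s hs, hγ.left t ht]
  have e : γ (-L) + (s + L) • deriv γ (-L) - (γ (-L) + (t + L) • deriv γ (-L)) =
      (s - t) • deriv γ (-L) := by
    rw [add_sub_add_left_eq_sub, ← sub_smul]
    congr 1
    ring
  rw [e, norm_smul, hγ.unit, mul_one, Real.norm_eq_abs]

lemma unit_right {γ : ℝ → P} {L : ℝ} (hγ : Crv γ L) {s t : ℝ} (hs : L ≤ s) (ht : L ≤ t) :
    ‖γ s - γ t‖ = |s - t| := by
  rw [hγ.right s hs, hγ.right t ht]
  have e : γ L + (s - L) • deriv γ L - (γ L + (t - L) • deriv γ L) =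
      (s - t) • deriv γ L := by
    rw [add_sub_add_left_eq_sub, ← sub_smul]
    congr 1
    ring
  rw [e, norm_smul, hγ.unit, mul_one, Real.norm_eq_abs]

lemma Dk_zero {γ : ℝ → P} {L : ℝ} (hγ : Crv γ L) (α k : ℝ) {s t : ℝ}
    (h : L + |s - t| < |s|) : Dk α k γ s t = 0 := by
  have h1 : ‖γ s - γ t‖ = |s - t| := by
    rcases le_total 0 s with h0 | h0
    · rw [abs_of_nonneg h0] at h
      have := le_abs_self (s - t)
      have := abs_nonneg (s - t)
      exact unit_right hγ (by linarith) (by linarith)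
    · rw [abs_of_nonpos h0] at h
      have := neg_abs_le (s - t)
      have := abs_nonneg (s - t)
      exact unit_left hγ (by linarith) (by linarith)
  unfold Dk
  rw [h1, sub_self, mul_zero]

lemma mu_ge {α k : ℝ} (hk : 0 < k) (hα : 4 * k + 1 ≤ α) : α / 4 ≤ mu α k := by
  unfold mu
  apply Real.le_sqrt_of_sq_le
  nlinarith

lemma fac {α μ c : ℝ} (hα : 1 ≤ α) (hμ : α / 4 ≤ μ) (hc : 0 < c) (i : ℕ) :
    α * μ / (μ * c) ^ (i + 2) ≤ (4 ^ (i + 1) / c ^ (i + 2)) / α ^ i := by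
  have hα0 : 0 < α := by linarith
  have hμ0 : 0 < μ := by linarith
  rw [div_div, div_le_div_iff₀ (by positivity) (by positivity)]
  have h1 : α ^ (i + 1) ≤ (4 * μ) ^ (i + 1) := pow_le_pow_left₀ hα0.le (by linarith) _
  calc α * μ * (c ^ (i + 2) * α ^ i) = α ^ (i + 1) * (μ * c ^ (i + 2)) := by ring
    _ ≤ (4 * μ) ^ (i + 1) * (μ * c ^ (i + 2)) := mul_le_mul_of_nonneg_right h1 (by positivity)
    _ = 4 ^ (i + 1) * (μ * c) ^ (i + 2) := by rw [mul_pow, mul_pow]; ring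

lemma fac' {α μ c : ℝ} (hα : 1 ≤ α) (hμ : α / 4 ≤ μ) (hc : 0 < c) (i : ℕ) :
    α * μ / (μ * c) ^ (i + 3) ≤ (4 ^ (i + 2) / c ^ (i + 3)) / α ^ i := by
  refine (fac hα hμ hc (i + 1)).trans ?_
  have hα0 : 0 < α := by linarith
  apply div_le_div_of_nonneg_left (by positivity) (by positivity)
  exact pow_le_pow_right₀ hα (by omega)

theorem t_D1 (h : S_CHORD) (h2 : S_TAY) (h3 : S_G) (h4 : S_D3) : S_D1 := by
  intro γ L k hγ hne hk
  obtain ⟨c, hc, hc1, hch⟩ := h γ L hγ hne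
  obtain ⟨C0, hC0, hT1, hT2, -, -, -⟩ := h2 γ L hγ
  obtain ⟨hG1, -, hG3, -, -, H, Q, hHm, -, hH0, hHanti, hHle, -, hHi, -, -⟩ := h3
  have hL := hγ.pos
  set M3 : ℝ := ∫ x in Ioi (0 : ℝ), x ^ 3 * H x with hM3
  set M4 : ℝ := ∫ x in Ioi (0 : ℝ), x ^ 4 * H x with hM4
  set M5 : ℝ := ∫ x in Ioi (0 : ℝ), x ^ 5 * H x with hM5
  have hM : ∀ i : ℕ, 0 ≤ ∫ x in Ioi (0 : ℝ), x ^ i * H x := by
    intro i
    refine setIntegral_nonneg measurableSet_Ioi fun x hx => ?_
    have := (hH0 x hx).1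
    have hx' : 0 < x := hx
    positivity
  have hM3' : 0 ≤ M3 := hM 3
  have hM4' : 0 ≤ M4 := hM 4
  have hM5' : 0 ≤ M5 := hM 5
  refine ⟨4 * k + 1, 2 * C0 * M3 * (64 / c ^ 4) + 4 * C0 * (L * M3 * (64 / c ^ 4) +
    M4 * (256 / c ^ 5)) + 4 * C0 * (L * M4 * (256 / c ^ 5) + M5 * (1024 / c ^ 6)) + 1,
    by linarith, by positivity, ?_⟩
  intro α hα
  set μ : ℝ := mu α k with hμ
  have hα1 : 1 ≤ α := by linarith
  have hα0 : 0 < α := by linarith
  have hμ4 : α / 4 ≤ μ := mu_ge hk hα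
  have hμ0 : 0 < μ := by linarith
  obtain ⟨hD0, -, hDi, hDs, -, -⟩ := h4 γ L k α hγ hne hk (by linarith)
  set β : ℝ := μ * c with hβ
  have hβ0 : 0 < β := by positivity
  set K : ℝ := α * μ * C0 with hK
  have hK0 : 0 ≤ K := by positivity
  -- the pointwise bound
  have hle : ∀ s t, Dk α k γ s t ≤ Ph K β H (s - t) := by
    intro s t
    rcases eq_or_ne s t with rfl | hst
    · unfold Dk Ph
      simp
    · have hr : 0 < |s - t| := abs_pos.2 (sub_ne_zero.2 hst)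
      have hρ : 0 < ‖γ s - γ t‖ := lt_of_lt_of_le (by positivity) (hch s t)
      unfold Dk Ph
      rw [← hμ, (hG1 μ _ hμ0 hρ).2, (hG1 μ _ hμ0 hr).2]
      have h5 := hHle (μ * ‖γ s - γ t‖) (μ * |s - t|) (by positivity)
        (mul_le_mul_of_nonneg_left (hT1 s t) hμ0.le)
      have h6 := (hHanti (β * |s - t|) (μ * ‖γ s - γ t‖) (by positivity) (by
        rw [hβ, mul_assoc]
        exact mul_le_mul_of_nonneg_left (hch s t) hμ0.le)).1
      have h7 := hT2 s t
      have h8 := (hH0 (β * |s - t|) (by positivity)).1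
      have h9 : 0 ≤ μ * |s - t| - μ * ‖γ s - γ t‖ := by
        have := mul_le_mul_of_nonneg_left (hT1 s t) hμ0.le
        linarith
      calc α * (Gk 1 (μ * ‖γ s - γ t‖) - Gk 1 (μ * |s - t|))
          ≤ α * ((μ * |s - t| - μ * ‖γ s - γ t‖) * H (β * |s - t|)) := by
            apply mul_le_mul_of_nonneg_left _ hα0.le
            exact h5.trans (mul_le_mul_of_nonneg_left h6 h9)
        _ ≤ α * ((μ * (C0 * |s - t| ^ 3)) * H (β * |s - t|)) := by
            apply mul_le_mul_of_nonneg_left _ hα0.le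
            apply mul_le_mul_of_nonneg_right _ h8
            rw [← mul_sub]
            exact mul_le_mul_of_nonneg_left h7 hμ0.le
        _ = K * (|s - t| ^ 3 * H (β * |s - t|)) := by rw [hK]; ring
  have hi3 := hHi 3 (by norm_num)
  have hi4 := hHi 4 (by norm_num)
  have hi5 := hHi 5 (by norm_num)
  -- the shear
  set T : ℝ × ℝ → ℝ × ℝ := fun z => (z.1, -z.1 + z.2) with hTdef
  have hTm : MeasurePreserving T volume volume := measurePreserving_prod_neg_add volume volume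
  have hPsT : ∀ (j : ℕ) (z : ℝ × ℝ), Dk α k γ z.1 z.2 * |z.1 - z.2| ^ j ≤ Ps K β L H j (T z) := by
    intro j z
    have e : |(T z).2| = |z.1 - z.2| := by
      change |-z.1 + z.2| = |z.1 - z.2|
      rw [← abs_neg]
      congr 1
      ring
    have e1 : (T z).1 = z.1 := rfl
    unfold Ps
    rw [e, e1]
    split_ifs with h5
    · apply mul_le_mul_of_nonneg_right _ (by positivity)
      refine (hle z.1 z.2).trans (le_of_eq ?_)
      unfold Ph
      rw [e]
    · rw [Dk_zero hγ α k (not_le.1 h5), zero_mul]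
  have hint : ∀ j : ℕ, IntegrableOn (fun x => x ^ (j + 3) * H x) (Ioi 0) →
      IntegrableOn (fun x => x ^ (j + 4) * H x) (Ioi 0) →
      Integrable (fun z : ℝ × ℝ => Dk α k γ z.1 z.2 * |z.1 - z.2| ^ j) ∧
      ∫ z : ℝ × ℝ, Dk α k γ z.1 z.2 * |z.1 - z.2| ^ j ≤
        4 * K * (L * ((∫ x in Ioi (0 : ℝ), x ^ (j + 3) * H x) / β ^ (j + 4)) +
        (∫ x in Ioi (0 : ℝ), x ^ (j + 4) * H x) / β ^ (j + 5)) := by
    intro j hj3 hj4
    obtain ⟨hP1, hP2⟩ := Ps_int K L hK0 hL hβ0 hHm (fun x hx => (hH0 x hx).1) j hj3 hj4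
    have hP3 : Integrable (fun z => Ps K β L H j (T z)) := hTm.integrable_comp_of_integrable hP1
    have hP4 : ∫ z, Ps K β L H j (T z) = ∫ w, Ps K β L H j w := by
      have := integral_map (μ := (volume : Measure (ℝ × ℝ))) hTm.measurable.aemeasurable
        (f := Ps K β L H j) (Ps_meas K β L hHm j).aestronglyMeasurable
      rw [hTm.map_eq] at this
      exact this.symm
    have hI : Integrable (fun z : ℝ × ℝ => Dk α k γ z.1 z.2 * |z.1 - z.2| ^ j) := by
      refine hP3.mono' ?_ (Eventually.of_forall fun z => ?_)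
      · apply hDi.aestronglyMeasurable.mul
        exact (by fun_prop : Continuous fun z : ℝ × ℝ => |z.1 - z.2| ^ j).aestronglyMeasurable
      · rw [Real.norm_of_nonneg (mul_nonneg (hD0 _ _) (by positivity))]
        exact hPsT j z
    refine ⟨hI, ?_⟩
    rw [← hP2, ← hP4]
    exact integral_mono hI hP3 (hPsT j)
  have hA : 0 ≤ 2 * C0 * M3 * (64 / c ^ 4) := by positivity
  have hB : 0 ≤ 4 * C0 * (L * M3 * (64 / c ^ 4) + M4 * (256 / c ^ 5)) := by positivity
  have hC : 0 ≤ 4 * C0 * (L * M4 * (256 / c ^ 5) + M5 * (1024 / c ^ 6)) := by positivity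
  have f3 := fac hα1 hμ4 hc 2
  have f4 := fac' hα1 hμ4 hc 2
  have g4 := fac hα1 hμ4 hc 3
  have g5 := fac' hα1 hμ4 hc 3
  norm_num only [Nat.reduceAdd] at f3 f4 g4 g5
  refine ⟨fun s => ?_, ?_, ?_, ?_⟩
  · have h5 : ∫ t, Dk α k γ s t ≤ ∫ t, Ph K β H (s - t) :=
      integral_mono (hDs s) ((Ph_int K hβ0 hi3).comp_sub_left s) (hle s)
    have h6 : ∫ t, Ph K β H (s - t) = ∫ r, Ph K β H r :=
      integral_sub_left_eq_self (Ph K β H) volume s
    rw [h6, Ph_integral K hβ0] at h5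
    refine h5.trans ?_
    have h7 : 2 * K * M3 / β ^ 4 = 2 * C0 * M3 * (α * μ / (μ * c) ^ 4) := by
      rw [hK, hβ]; ring
    rw [← hM3, h7]
    have h8 := mul_le_mul_of_nonneg_left f3 (by positivity : 0 ≤ 2 * C0 * M3)
    refine h8.trans ?_
    rw [← mul_div_assoc]
    apply div_le_div_of_nonneg_right _ (by positivity)
    linarith
  · obtain ⟨-, h5⟩ := hint 0 (by simpa using hi3) (by simpa using hi4)
    simp only [pow_zero, mul_one, zero_add] at h5
    refine h5.trans ?_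
    rw [← hM3, ← hM4]
    have h7 : 4 * K * (L * (M3 / β ^ 4) + M4 / β ^ 5) =
        4 * C0 * L * M3 * (α * μ / (μ * c) ^ 4) + 4 * C0 * M4 * (α * μ / (μ * c) ^ 5) := by
      rw [hK, hβ]; ring
    rw [h7]
    have h8 := mul_le_mul_of_nonneg_left f3 (by positivity : 0 ≤ 4 * C0 * L * M3)
    have h9 := mul_le_mul_of_nonneg_left f4 (by positivity : 0 ≤ 4 * C0 * M4)
    refine (add_le_add h8 h9).trans ?_
    have e8 : 4 * C0 * L * M3 * (64 / c ^ 4 / α ^ 2) + 4 * C0 * M4 * (256 / c ^ 5 / α ^ 2) =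
        (4 * C0 * (L * M3 * (64 / c ^ 4) + M4 * (256 / c ^ 5))) / α ^ 2 := by ring
    rw [e8]
    apply div_le_div_of_nonneg_right _ (by positivity)
    linarith
  · obtain ⟨h5, -⟩ := hint 1 (by simpa using hi4) (by simpa using hi5)
    simpa only [pow_one] using h5
  · obtain ⟨-, h5⟩ := hint 1 (by simpa using hi4) (by simpa using hi5)
    simp only [pow_one] at h5
    refine h5.trans ?_
    norm_num only [Nat.reduceAdd]
    rw [← hM4, ← hM5]
    have h7 : 4 * K * (L * (M4 / β ^ 5) + M5 / β ^ 6) =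
        4 * C0 * L * M4 * (α * μ / (μ * c) ^ 5) + 4 * C0 * M5 * (α * μ / (μ * c) ^ 6) := by
      rw [hK, hβ]; ring
    rw [h7]
    have h8 := mul_le_mul_of_nonneg_left g4 (by positivity : 0 ≤ 4 * C0 * L * M4)
    have h9 := mul_le_mul_of_nonneg_left g5 (by positivity : 0 ≤ 4 * C0 * M5)
    refine (add_le_add h8 h9).trans ?_
    have e8 : 4 * C0 * L * M4 * (256 / c ^ 5 / α ^ 3) + 4 * C0 * M5 * (1024 / c ^ 6 / α ^ 3) =
        (4 * C0 * (L * M4 * (256 / c ^ 5) + M5 * (1024 / c ^ 6))) / α ^ 3 := by ring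
    rw [e8]
    apply div_le_div_of_nonneg_right _ (by positivity)
    linarith

end

end Pool.Agent.E8helper67.LC
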